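import Pool.Agent.Helper93.PL.St

/-!
# Project PL, module Kml (`k`-th moment, lower bound)
-/

set_option autoImplicit false

namespace Pool.Agent.Helper29.PL

open Finset
open Pool.Agent.Helper61.PV Pool.Agent.Helper93.PL
open Pool.Agent.Helper48.BK (th StSW)

lemma kml_th_nn (n : ℕ) : 0 ≤ th n := by
  unfold th
  split_ifs
  · exact Real.log_natCast_nonneg n
  · exact le_rfl

lemma kml_thz_nn (n : ℤ) : 0 ≤ thz n := kml_th_nn _

lemma kml_prime_of_ne {n : ℤ} (h : thz n ≠ 0) : n.toNat.Prime := by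
  by_contra hp
  apply h
  unfold thz th
  rw [if_neg hp]

lemma kml_ev_add {d : ℕ} (W : ℤ) (F a b : Fin (d + 1) → ℤ) (m : ℤ) :
    ev (lin W F (a + b)) m = ev (lin W F a) m + W * ev b m := by
  unfold ev lin
  rw [Finset.mul_sum, ← Finset.sum_add_distrib]
  refine Finset.sum_congr rfl fun i _ => ?_
  simp only [Pi.add_apply]
  ring

lemma kml_ev_lin {d : ℕ} (W : ℤ) (F a : Fin (d + 1) → ℤ) (m : ℤ) :
    ev (lin W F a) m = ev F m + W * ev a m := by
  unfold ev lin
  rw [Finset.mul_sum, ← Finset.sum_add_distrib]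
  refine Finset.sum_congr rfl fun i _ => ?_
  ring

lemma kml_dvd {d : ℕ} (c : Fin (d + 1) → ℤ) (x y : ℤ) : (x - y) ∣ ev c x - ev c y := by
  unfold ev
  rw [← Finset.sum_sub_distrib]
  refine Finset.dvd_sum fun i _ => ?_
  rw [← mul_sub]
  exact Dvd.dvd.mul_left (sub_dvd_pow_sub_pow x y i) _

lemma kml_mem_Bx {d : ℕ} {A : Fin (d + 1) → ℤ} {h : Fin (d + 1) → ℕ} {g : Fin (d + 1) → ℤ} :
    g ∈ Bx A h ↔ ∀ i, A i ≤ g i ∧ g i < A i + h i := by
  unfold Bx
  simp only [Fintype.mem_piFinset, mem_Ico]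

lemma kml_card {d : ℕ} (A : Fin (d + 1) → ℤ) (h : Fin (d + 1) → ℕ) :
    ((#(Bx A h) : ℕ) : ℝ) = ∏ i, (h i : ℝ) := by
  unfold Bx
  rw [Fintype.card_piFinset]
  push_cast
  refine Finset.prod_congr rfl fun i _ => ?_
  rw [Int.card_Ico]
  congr 1
  omega

/-- the value at `m_j` is coprime to `W q_j` if the earlier values are primes `> M` -/
lemma kml_cop {k d M W : ℕ} {m : Fin k → ℕ} (hm : StrictMono m) (hmM : ∀ j, 1 ≤ m j ∧ m j ≤ M)
    {F a : Fin (d + 1) → ℤ} (j : Fin k) (hcop : Nat.Coprime (ev F (m j)).natAbs W)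
    {y : ℕ} (hy : ev (lin W F a) (m j) = y)
    (hp : ∀ i, i < j → (ev (lin W F a) (m i)).toNat.Prime ∧ (M : ℤ) < ev (lin W F a) (m i)) :
    Nat.Coprime y (W * qd m j) := by
  refine Nat.Coprime.mul_right ?_ ?_
  · rw [← Nat.isCoprime_iff_coprime, ← hy, kml_ev_lin]
    have h3 : IsCoprime (ev F (m j)) (W : ℤ) := by
      rw [Int.isCoprime_iff_gcd_eq_one]
      simpa [Int.gcd] using hcop
    exact IsCoprime.add_mul_left_left h3 _
  · unfold qd
    refine Nat.Coprime.prod_right fun i hi => ?_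
    rw [mem_filter] at hi
    have hij := hi.2
    have hlt := hm hij
    obtain ⟨hpr, hbig⟩ := hp i hij
    obtain ⟨p, hpe⟩ := Int.eq_ofNat_of_zero_le (by omega : 0 ≤ ev (lin W F a) (m i))
    rw [hpe] at hpr hbig
    rw [Int.toNat_natCast] at hpr
    have h1 : Nat.Coprime p (m j - m i) := by
      refine (Nat.Prime.coprime_iff_not_dvd hpr).2 fun hd => ?_
      have h2 := Nat.le_of_dvd (by omega) hd
      have h3 := (hmM j).2
      omega
    obtain ⟨c, hc⟩ := kml_dvd (lin W F a) (m j) (m i)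
    rw [hy, hpe] at hc
    rw [← Nat.isCoprime_iff_coprime] at h1 ⊢
    have h4 : ((m j - m i : ℕ) : ℤ) = (m j : ℤ) - m i := by
      rw [Nat.cast_sub hlt.le]
    have h5 : (y : ℤ) = p + ((m j - m i : ℕ) : ℤ) * c := by
      rw [h4]
      linarith
    rw [h5]
    exact IsCoprime.add_mul_left_left h1 _

theorem hKml (hTra : StTra) (hKdg : StKdg) (hIte : StIte) : StKml := by
  intro k d M B W m x E F A h hK hR hE
  obtain ⟨hkd, hm, hmM, hMB, hB, hW, hE0, hAPB, hsize, hcop⟩ := hK
  obtain ⟨t, b, ht, hb⟩ := hKdg k d B M m hkd hm hmM hMB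
  set R : ℕ := (M + 2) ^ k * B with hRdef
  have hNpos : ∀ j : Fin k, 1 ≤ Nj d B m j := fun j =>
    Nat.mul_pos (pow_pos (by have := (hmM j).1; omega) _) hB
  set G : (Fin (d + 1) → ℤ) → ℝ := fun g => ∏ j, thz (ev (lin W F g) (m j)) with hG
  have hG0 : ∀ g, 0 ≤ G g := fun g => prod_nonneg fun j _ => kml_thz_nn _
  set P : Finset (Fin (d + 1) → ℤ) := Bx (fun i => A i + R) (fun i => h i - 2 * R) with hP
  set Us : Finset (Fin k → ℕ) := Fintype.piFinset (fun j => range (Nj d B m j)) with hUs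
  have hUmem : ∀ u, u ∈ Us ↔ ∀ j, u j < Nj d B m j := by
    intro u
    rw [hUs, Fintype.mem_piFinset]
    simp only [mem_range]
  have hcard : ((#P : ℕ) : ℝ) = ∏ i, ((h i - 2 * R : ℕ) : ℝ) := kml_card _ _
  have hcardU : ((#Us : ℕ) : ℝ) = ∏ j : Fin k, (Nj d B m j : ℝ) := by
    rw [hUs, Fintype.card_piFinset]
    push_cast
    simp only [card_range]
  -- translates
  have tr : ∀ u ∈ Us, ∑ a ∈ P, G (a + b u) ≤ ∑ g ∈ Bx A h, G g := by
    intro u hu
    rw [hUmem] at hu
    exact (hTra d R A (b u) h G hG0 (hb u hu).1).2 hR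
  -- the pointwise bound
  have key : ∀ a ∈ P, ∏ j : Fin k, (Mt W d B m j - E j) ≤ ∑ u ∈ Us, G (a + b u) := by
    intro a ha
    rw [hP, kml_mem_Bx] at ha
    have hval : ∀ u, (∀ i, u i < Nj d B m i) → ∀ j,
        ev (lin W F (a + b u)) (m j) = ev (lin W F a) (m j) + W * (t j u + (qd m j : ℤ) * u j) := by
      intro u hu j
      rw [kml_ev_add, (hb u hu).2 j]
    have hwin : ∀ u, (∀ i, u i < Nj d B m i) → ∀ i, A i - (2 * R : ℕ) ≤ (a + b u) i ∧
        (a + b u) i < A i + h i + (2 * R : ℕ) := by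
      intro u hu i
      have h1 := ha i
      have h2 := abs_le.mp ((hb u hu).1 i)
      have h3 : ((h i - 2 * R : ℕ) : ℤ) = (h i : ℤ) - 2 * R := by
        rw [Nat.cast_sub (hR i)]
        push_cast
        ring
      rw [h3] at h1
      have h4 : (0 : ℤ) ≤ R := Int.natCast_nonneg _
      simp only [Pi.add_apply]
      push_cast at h1 h2 ⊢
      constructor <;> [linarith [h1.1, h2.1]; linarith [h1.2, h2.2]]
    set T : Fin k → (Fin k → ℕ) → ℝ := fun j u =>
      thz (ev (lin W F a) (m j) + W * (t j u + (qd m j : ℤ) * u j)) with hT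
    have hT0 : ∀ j u, 0 ≤ T j u := fun j u => kml_thz_nn _
    have hTdep : ∀ j u u', (∀ i, i ≤ j → u i = u' i) → T j u = T j u' := by
      intro j u u' huu
      simp only [hT]
      rw [ht j u u' (fun i hi => huu i hi.le), huu j le_rfl]
    have hc0 : ∀ j : Fin k, 0 ≤ Mt W d B m j - E j := fun j => sub_nonneg.2 (hE j)
    have hI := (hIte k (fun j => Nj d B m j) T (fun j => Mt W d B m j - E j)
      (fun j => Mt W d B m j - E j) hNpos hT0 hTdep hc0 hc0).2
    have hsum : ∑ u ∈ Us, G (a + b u) = ∑ u ∈ Us, ∏ j, T j u := by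
      refine sum_congr rfl fun u hu => ?_
      rw [hUmem] at hu
      simp only [hG, hT]
      refine prod_congr rfl fun j _ => ?_
      rw [hval u hu j]
    rw [hsum]
    refine hI ?_
    intro j u hu hTu
    set u' : Fin k → ℕ := Function.update u j 0 with hu'
    have hu'r : ∀ i, u' i < Nj d B m i := by
      intro i
      rw [hu']
      by_cases hij : i = j
      · subst hij
        rw [Function.update_self]
        exact hNpos i
      · rw [Function.update_of_ne hij]
        exact hu i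
    have hlow : ∀ i, i < j → u' i = u i := by
      intro i hij
      rw [hu', Function.update_of_ne hij.ne]
    have hu'j : u' j = 0 := by rw [hu', Function.update_self]
    obtain ⟨hM1, hM2⟩ := hsize (a + b u') (hwin u' hu'r) j
    obtain ⟨y, hy⟩ := Int.eq_ofNat_of_zero_le (by omega : 0 ≤ ev (lin W F (a + b u')) (m j))
    have hcopy : Nat.Coprime y (W * qd m j) := by
      refine kml_cop hm hmM j (hcop j) hy fun i hij => ⟨?_, (hsize (a + b u') (hwin u' hu'r) i).1⟩
      have h1 := kml_prime_of_ne (hTu i hij)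
      rw [hval u' hu'r i, ht i u' u (fun l hl => hlow l (hl.trans hij)), hlow i hij]
      exact h1
    have hAP := hAPB j y (by
      rw [hy] at hM1
      have : (0 : ℤ) ≤ M := Int.natCast_nonneg _
      have h2 : (0 : ℤ) < y := by exact_mod_cast lt_of_le_of_lt this hM1
      omega) (by
      rw [hy] at hM2
      exact_mod_cast hM2)
    rw [if_pos hcopy] at hAP
    have hS : ∑ v ∈ range (Nj d B m j), T j (Function.update u j v) =
        ∑ v ∈ range (Nj d B m j), th (y + W * qd m j * v) := by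
      refine sum_congr rfl fun v hv => ?_
      simp only [hT]
      rw [Function.update_self, ht j (Function.update u j v) u' (fun i hij => by
        rw [Function.update_of_ne hij.ne, hlow i hij])]
      have h1 := hval u' hu'r j
      rw [hu'j, hy] at h1
      have h2 : ev (lin W F a) (m j) + (W : ℤ) * (t j u' + (qd m j : ℤ) * v) =
          ((y + W * qd m j * v : ℕ) : ℤ) := by
        push_cast
        push_cast at h1
        linarith
      rw [h2]
      unfold thz
      rw [Int.toNat_natCast]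
    show Mt W d B m j - E j ≤ ∑ v ∈ range (Nj d B m j), T j (Function.update u j v)
    rw [hS]
    have h1 := (abs_le.mp hAP).1
    unfold Mt
    linarith
  calc (∏ i, ((h i - 2 * R : ℕ) : ℝ)) * ∏ j : Fin k, (Mt W d B m j - E j)
      = ∑ _a ∈ P, ∏ j : Fin k, (Mt W d B m j - E j) := by
        rw [sum_const, nsmul_eq_mul, hcard]
    _ ≤ ∑ a ∈ P, ∑ u ∈ Us, G (a + b u) := sum_le_sum key
    _ = ∑ u ∈ Us, ∑ a ∈ P, G (a + b u) := sum_comm
    _ ≤ ∑ _u ∈ Us, ∑ g ∈ Bx A h, G g := sum_le_sum tr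
    _ = (∏ j : Fin k, (Nj d B m j : ℝ)) * ∑ g ∈ Bx A h, G g := by
        rw [sum_const, nsmul_eq_mul, hcardU]

end Pool.Agent.Helper29.PL
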