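import Pool.Agent.Helper93.PL.St

/-!
# Project PL, module Lc1 (the law in one class)
-/

set_option autoImplicit false

namespace Pool.Agent.Helper29.PL

open Finset
open Pool.Agent.Helper61.PV Pool.Agent.Helper93.PL

lemma lc1_card {α : Type*} (S : Finset α) (p : α → Prop) [DecidablePred p] :
    (Nat.card {g : α // g ∈ S ∧ p g} : ℝ) = ∑ g ∈ S, (if p g then (1 : ℝ) else 0) := by
  rw [Finset.sum_boole, Nat.subtype_card (S.filter p) (by simp)]

lemma lc1_abs {ι : Type*} (S : Finset ι) (N : ι → ℕ) (j r : ℕ) (y z e P : ℝ)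
    (hP : 0 ≤ P) (hy : 0 ≤ y) (hyz : y ≤ z) (hBof : StBof) (hSer : StSer)
    (hM : ∀ i ∈ range (r + 2),
      |∑ g ∈ S, ((N g).choose (j + i) : ℝ) - y ^ (j + i) / (j + i).factorial * P| ≤ e * P) :
    |∑ g ∈ S, (if N g = j then (1 : ℝ) else 0) - pois j z * P| ≤
      ((∑ i ∈ range (r + 2), ((j + i).choose j : ℝ)) * e + (z - y) +
        2 * ((j + r + 1).choose j : ℝ) * (z ^ (j + r + 1) / (j + r + 1).factorial)) * P := by
  obtain ⟨c, hc⟩ : ∃ c : ℕ → ℝ, c = fun i => ((j + i).choose j : ℝ) := ⟨_, rfl⟩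
  obtain ⟨Mm, hMm⟩ : ∃ Mm : ℕ → ℝ, Mm = fun i => ∑ g ∈ S, ((N g).choose (j + i) : ℝ) := ⟨_, rfl⟩
  obtain ⟨V, hV⟩ : ∃ V : ℕ → ℝ, V = fun i => y ^ (j + i) / ((j + i).factorial : ℝ) := ⟨_, rfl⟩
  obtain ⟨S0, hS0⟩ : ∃ S0 : ℝ, S0 = ∑ g ∈ S, (if N g = j then (1 : ℝ) else 0) := ⟨_, rfl⟩
  have hc0 : ∀ i, 0 ≤ c i := fun i => by rw [hc]; positivity
  have hM' : ∀ i ∈ range (r + 2), |Mm i - V i * P| ≤ e * P := by
    intro i hi
    rw [hMm, hV]
    exact hM i hi
  have h1 : |S0 - ∑ i ∈ range (r + 1), (-1 : ℝ) ^ i * c i * Mm i| ≤ c (r + 1) * Mm (r + 1) := by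
    have e1 : S0 - ∑ i ∈ range (r + 1), (-1 : ℝ) ^ i * c i * Mm i =
        ∑ g ∈ S, ((if N g = j then (1 : ℝ) else 0) -
          ∑ i ∈ range (r + 1), (-1 : ℝ) ^ i * c i * ((N g).choose (j + i) : ℝ)) := by
      rw [sum_sub_distrib, hS0]
      congr 1
      rw [sum_comm]
      refine sum_congr rfl fun i _ => ?_
      rw [hMm, mul_sum]
    rw [e1]
    refine (abs_sum_le_sum_abs _ _).trans ?_
    have e2 : c (r + 1) * Mm (r + 1) =
        ∑ g ∈ S, ((j + r + 1).choose j : ℝ) * ((N g).choose (j + r + 1) : ℝ) := by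
      rw [hc, hMm, mul_sum]
      rfl
    rw [e2]
    refine sum_le_sum fun g _ => ?_
    rw [hc]
    exact hBof j r (N g)
  have h2 : |∑ i ∈ range (r + 1), (-1 : ℝ) ^ i * c i * Mm i -
      (∑ i ∈ range (r + 1), (-1 : ℝ) ^ i * c i * V i) * P| ≤
      ∑ i ∈ range (r + 1), c i * (e * P) := by
    rw [sum_mul, ← sum_sub_distrib]
    refine (abs_sum_le_sum_abs _ _).trans (sum_le_sum fun i hi => ?_)
    have e1 : (-1 : ℝ) ^ i * c i * Mm i - (-1 : ℝ) ^ i * c i * V i * P =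
        (-1) ^ i * (c i * (Mm i - V i * P)) := by ring
    rw [e1, abs_mul, abs_pow, abs_neg, abs_one, one_pow, one_mul, abs_mul, abs_of_nonneg (hc0 i)]
    refine mul_le_mul_of_nonneg_left (hM' i ?_) (hc0 i)
    rw [mem_range] at hi ⊢
    omega
  have h3 : |pois j y - ∑ i ∈ range (r + 1), (-1 : ℝ) ^ i * c i * V i| ≤
      c (r + 1) * V (r + 1) := by
    rw [hc, hV]
    exact hSer.1 j r y hy
  have h4 : |pois j y - pois j z| ≤ z - y := by
    refine (hSer.2.2 j y z hy (hy.trans hyz)).trans (le_of_eq ?_)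
    rw [abs_sub_comm, abs_of_nonneg (sub_nonneg.2 hyz)]
  have h5 : Mm (r + 1) ≤ V (r + 1) * P + e * P := by
    have := (abs_le.1 (hM' (r + 1) (by rw [mem_range]; omega))).2
    linarith
  have h6 : V (r + 1) ≤ z ^ (j + r + 1) / ((j + r + 1).factorial : ℝ) := by
    rw [hV]
    exact div_le_div_of_nonneg_right (pow_le_pow_left₀ hy hyz _) (by positivity)
  have h7 : |S0 - pois j z * P| ≤
      c (r + 1) * Mm (r + 1) + ∑ i ∈ range (r + 1), c i * (e * P) + c (r + 1) * V (r + 1) * P +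
        (z - y) * P := by
    have e1 : S0 - pois j z * P = (S0 - ∑ i ∈ range (r + 1), (-1 : ℝ) ^ i * c i * Mm i) +
        (∑ i ∈ range (r + 1), (-1 : ℝ) ^ i * c i * Mm i -
          (∑ i ∈ range (r + 1), (-1 : ℝ) ^ i * c i * V i) * P) -
        (pois j y - ∑ i ∈ range (r + 1), (-1 : ℝ) ^ i * c i * V i) * P +
        (pois j y - pois j z) * P := by ring
    rw [e1]
    refine (abs_add_le _ _).trans (add_le_add ((abs_sub _ _).trans (add_le_add
      ((abs_add_le _ _).trans (add_le_add h1 h2)) ?_)) ?_)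
    · rw [abs_mul, abs_of_nonneg hP]
      exact mul_le_mul_of_nonneg_right h3 hP
    · rw [abs_mul, abs_of_nonneg hP]
      exact mul_le_mul_of_nonneg_right h4 hP
  rw [← hS0]
  refine h7.trans ?_
  have h8 : ∑ i ∈ range (r + 2), ((j + i).choose j : ℝ) = ∑ i ∈ range (r + 1), c i + c (r + 1) := by
    rw [sum_range_succ, hc]
  have h9 : ((j + r + 1).choose j : ℝ) = c (r + 1) := by rw [hc]; rfl
  rw [h8, h9, ← sum_mul]
  have h10 := mul_le_mul_of_nonneg_left h5 (hc0 (r + 1))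
  have h11 := mul_le_mul_of_nonneg_right (mul_le_mul_of_nonneg_left h6 (hc0 (r + 1))) hP
  nlinarith [h10, h11]

theorem hLc1 (hClm : StClm) (hBof : StBof) (hSer : StSer) (hCar : StCar) : StLc1 := by
  intro j r ε x hε hx
  obtain ⟨C, hC⟩ : ∃ C : ℝ, C = ∑ i ∈ range (r + 2), ((j + i).choose j : ℝ) := ⟨_, rfl⟩
  have hC1 : 0 < C := by
    rw [hC]
    exact sum_pos (fun i _ => by exact_mod_cast Nat.choose_pos (by omega)) ⟨0, by simp⟩
  have hε' : 0 < ε / C := by positivity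
  choose w₀ hw₀ using fun i : ℕ => hClm (j + i) (ε / C) x hε' hx
  refine ⟨∑ i ∈ range (r + 2), w₀ i, fun w hw μ κ hμ hμx hκ hκ4 => ?_⟩
  have h2 : ∀ i ∈ range (r + 2), w₀ i ≤ w := fun i hi =>
    (single_le_sum (fun _ _ => Nat.zero_le _) hi).trans hw
  choose H₀ hH₀ using fun i : {i // i ∈ range (r + 2)} =>
    hw₀ i.1 w (h2 i.1 i.2) μ κ hμ hμx hκ hκ4
  refine ⟨∑ i, H₀ i, fun H hH d hd hjd hpow F A h hCond => ?_⟩
  have hL1 : (1 : ℝ) ≤ Real.log H + d := by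
    have h3 := Real.log_natCast_nonneg H
    have h4 : (1 : ℝ) ≤ d := by exact_mod_cast hd
    linarith
  have hb0 : (0 : ℝ) ≤ (Rc (primorial w) F : ℝ) / Nat.totient (primorial w) := by positivity
  have hP0 : (0 : ℝ) ≤ ∏ i, (h i : ℝ) := by positivity
  have hM : ∀ i ∈ range (r + 2),
      |∑ g ∈ Bx A h, ((nP (lin (primorial w) F g) (μ * Sz H d) (x * Sz H d)).choose (j + i) : ℝ) -
        ((x - μ) * (Rc (primorial w) F / Nat.totient (primorial w))) ^ (j + i) /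
          (j + i).factorial * ∏ i, (h i : ℝ)| ≤ ε / C * ∏ i, (h i : ℝ) := by
    intro i hi
    have hi' := mem_range.1 hi
    refine hH₀ ⟨i, hi⟩ H ((single_le_sum (fun _ _ => Nat.zero_le _) (mem_univ _)).trans hH) d hd
      (by show j + i ≤ d + 1; omega) ((pow_le_pow_right₀ hL1 ?_).trans hpow) F A h hCond
    refine Nat.mul_le_mul_left _ ?_
    show j + i + 1 ≤ j + r + 2
    omega
  have hmain := lc1_abs (Bx A h) (fun g => nP (lin (primorial w) F g) (μ * Sz H d) (x * Sz H d))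
    j r ((x - μ) * (Rc (primorial w) F / Nat.totient (primorial w)))
    (x * (Rc (primorial w) F / Nat.totient (primorial w))) (ε / C) (∏ i, (h i : ℝ)) hP0
    (mul_nonneg (by linarith) hb0) (mul_le_mul_of_nonneg_right (by linarith) hb0) hBof hSer hM
  rw [← hC, mul_div_cancel₀ _ hC1.ne'] at hmain
  rw [lc1_card]
  refine hmain.trans (le_of_eq ?_)
  ring

end Pool.Agent.Helper29.PL
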